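import Mathlib.Combinatorics.Matroid.Rank.ENat

namespace Pool.Agent.Work.MP_4792b2_co

/-- `I` is a part-transversal of the family `A`: its elements can be assigned injectively to
indices of members of the family that contain them. -/
def IsPartTransversal {α ι : Type*} (A : ι → Set α) (I : Set α) : Prop :=
  ∃ φ : I → ι, Function.Injective φ ∧ ∀ x : I, (x : α) ∈ A (φ x)

/-- `M` is a transversal matroid: its independent sets are exactly the part-transversals of some
finite family of subsets of its ground set. -/
def IsTransversal {α : Type*} (M : Matroid α) : Prop :=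
  ∃ (n : ℕ) (A : Fin n → Set α), (∀ i, A i ⊆ M.E) ∧ ∀ I, M.Indep I ↔ IsPartTransversal A I

/-- The relation `X ∼_U X'`: for every `Z ⊆ E - U`, `X ∪ Z` is independent iff `X' ∪ Z` is. -/
def Sim {α : Type*} (M : Matroid α) (U X X' : Set α) : Prop :=
  ∀ Z, Z ⊆ M.E \ U → (M.Indep (X ∪ Z) ↔ M.Indep (X' ∪ Z))

/-- The set of equivalence classes of `∼_U` on the subsets of `U`. -/
def simClasses {α : Type*} (M : Matroid α) (U : Set α) : Set (Set (Set α)) :=
  {K | ∃ X, X ⊆ U ∧ K = {X' | X' ⊆ U ∧ Sim M U X X'}}

end Pool.Agent.Work.MP_4792b2_co
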