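import Mathlib.Combinatorics.Matroid.Rank.ENat
import Mathlib.Combinatorics.Hall.Basic
import Mathlib.Data.Set.Card
import Mathlib.Tactic
import Pool.Agent.Work.MP_4792b2_co.Defs

namespace Pool.Agent.Work.MP_4792b2_co

open Set Matroid

variable {α ι : Type*} {M : Matroid α} {A : ι → Set α}

/-- The indices of members of the family that meet `W`. -/
def nbr (A : ι → Set α) (W : Set α) : Set ι := {i | ∃ x ∈ W, x ∈ A i}

/-- `A` presents `M` (function form). -/
def Presents (M : Matroid α) (A : ι → Set α) : Prop :=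
  ∀ I, M.Indep I ↔ ∃ ψ : α → ι, InjOn ψ I ∧ ∀ x ∈ I, x ∈ A (ψ x)

lemma IsTransversal.exists_presents (h : IsTransversal M) :
    ∃ (n : ℕ) (A : Option (Fin n) → Set α), Presents M A := by
  classical
  obtain ⟨n, A, -, hA⟩ := h
  refine ⟨n, fun o => o.elim ∅ A, fun I => ?_⟩
  rw [hA I]
  constructor
  · rintro ⟨φ, hφ, hφA⟩
    refine ⟨fun x => if hx : x ∈ I then some (φ ⟨x, hx⟩) else none, ?_, ?_⟩
    · intro x hx y hy hxy
      simp only [dif_pos hx, dif_pos hy, Option.some.injEq] at hxy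
      exact congrArg Subtype.val (hφ hxy)
    · intro x hx
      simp only [dif_pos hx, Option.elim]
      exact hφA ⟨x, hx⟩
  · rintro ⟨ψ, hψ, hψA⟩
    have hs : ∀ x : I, ∃ i : Fin n, ψ x = some i := by
      intro x
      have h1 := hψA x x.2
      cases hx : ψ x with
      | none => rw [hx] at h1; exact absurd h1 (by simp [Option.elim])
      | some i => exact ⟨i, rfl⟩
    choose φ hφ using hs
    refine ⟨φ, ?_, ?_⟩
    · intro x y hxy
      apply Subtype.ext
      apply hψ x.2 y.2
      rw [hφ x, hφ y, hxy]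
    · intro x
      have h1 := hψA x x.2
      rw [hφ x] at h1
      exact h1

lemma nbr_mono {W W' : Set α} (h : W ⊆ W') : nbr A W ⊆ nbr A W' :=
  fun _ ⟨x, hx, hi⟩ => ⟨x, h hx, hi⟩

lemma nbr_union (W W' : Set α) : nbr A (W ∪ W') = nbr A W ∪ nbr A W' := by
  ext i
  simp only [nbr, mem_union, mem_ofPred_eq]
  constructor
  · rintro ⟨x, hx | hx, hi⟩
    · exact Or.inl ⟨x, hx, hi⟩
    · exact Or.inr ⟨x, hx, hi⟩
  · rintro (⟨x, hx, hi⟩ | ⟨x, hx, hi⟩)
    · exact ⟨x, Or.inl hx, hi⟩
    · exact ⟨x, Or.inr hx, hi⟩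

section finite

variable [Finite ι]

lemma Presents.ncard_le_nbr (hA : Presents M A) {W : Set α} (hW : M.Indep W) :
    W.ncard ≤ (nbr A W).ncard := by
  obtain ⟨ψ, hψ, hψA⟩ := (hA W).1 hW
  exact ncard_le_ncard_of_injOn ψ (fun x hx => ⟨x, hx, hψA x hx⟩) hψ (toFinite _)

lemma Presents.indep_of_hall [Nonempty ι] (hA : Presents M A) {I : Set α} (hI : I.Finite)
    (h : ∀ W, W ⊆ I → W.ncard ≤ (nbr A W).ncard) : M.Indep I := by
  classical
  have := Fintype.ofFinite ι
  have hall := (Fintype.all_card_le_filter_rel_iff_exists_injective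
    (fun (x : I) (i : ι) => (x : α) ∈ A i)).1 (by
      intro B
      have h1 := h ((fun x : I => (x : α)) '' (B : Set I)) (by
        rintro _ ⟨x, -, rfl⟩; exact x.2)
      rw [ncard_image_of_injective _ Subtype.val_injective, ncard_coe_finset] at h1
      refine h1.trans (le_of_eq ?_)
      rw [← ncard_coe_finset]
      congr 1
      ext i
      simp [nbr])
  obtain ⟨f, hf, hfA⟩ := hall
  refine (hA I).2 ⟨fun x => if hx : x ∈ I then f ⟨x, hx⟩ else Classical.arbitrary ι, ?_, ?_⟩
  · intro x hx y hy hxy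
    simp only [dif_pos hx, dif_pos hy] at hxy
    exact congrArg Subtype.val (hf hxy)
  · intro x hx
    simp only [dif_pos hx]
    exact hfA ⟨x, hx⟩

variable [Nonempty ι] [M.Finite]

lemma Presents.circuit_nbr (hA : Presents M A) {C : Set α} (hC : M.IsCircuit C) :
    (nbr A C).ncard + 1 ≤ C.ncard := by
  by_contra hcon
  apply hC.not_indep
  apply hA.indep_of_hall (M.set_finite C hC.subset_ground)
  intro W hW
  rcases hW.eq_or_ssubset with rfl | hW'
  · omega
  · exact hA.ncard_le_nbr (hC.ssubset_indep hW')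

lemma Presents.circuit_nbr_eq_image (hA : Presents M A) {C : Set α} (hC : M.IsCircuit C) {e : α}
    (he : e ∈ C) {ψ : α → ι} (hψ : InjOn ψ (C \ {e})) (hψA : ∀ x ∈ C \ {e}, x ∈ A (ψ x)) :
    nbr A C = ψ '' (C \ {e}) := by
  have hfin : C.Finite := M.set_finite C hC.subset_ground
  symm
  apply eq_of_subset_of_ncard_le
  · rintro _ ⟨x, hx, rfl⟩
    exact ⟨x, hx.1, hψA x hx⟩
  · rw [hψ.ncard_image, ncard_sdiff_singleton_of_mem he]
    have := hA.circuit_nbr hC
    omega
  · exact toFinite _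

lemma Presents.circuit_nbr_subset (hA : Presents M A) {C : Set α} (hC : M.IsCircuit C) {e : α}
    (he : e ∈ C) : nbr A C ⊆ nbr A (C \ {e}) := by
  obtain ⟨ψ, hψ, hψA⟩ := (hA _).1 (hC.sdiff_singleton_indep he)
  rw [hA.circuit_nbr_eq_image hC he hψ hψA]
  rintro _ ⟨x, hx, rfl⟩
  exact ⟨x, hx, hψA x hx⟩

lemma Presents.nbr_subset_of_mem_closure (hA : Presents M A) {Y : Set α} {f : α}
    (hf : f ∈ M.closure Y) : nbr A {f} ⊆ nbr A Y := by
  by_cases hfY : f ∈ Y
  · exact nbr_mono (singleton_subset_iff.2 hfY)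
  · obtain ⟨C, hCY, hC, hfC⟩ := exists_isCircuit_of_mem_closure hf hfY
    refine (nbr_mono (singleton_subset_iff.2 hfC)).trans
      ((hA.circuit_nbr_subset hC hfC).trans (nbr_mono ?_))
    rintro x ⟨hx, hxf⟩
    rcases hCY hx with h | h
    · exact absurd h hxf
    · exact h

/-- The union of the circuits contained in `U`. -/
def cyc (M : Matroid α) (U : Set α) : Set α := {e | ∃ C, M.IsCircuit C ∧ C ⊆ U ∧ e ∈ C}

omit [M.Finite] in
lemma cyc_subset (U : Set α) : cyc M U ⊆ U := fun _ ⟨_, _, hCU, he⟩ => hCU he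

omit [M.Finite] in
lemma cyc_subset_ground (U : Set α) : cyc M U ⊆ M.E := fun _ ⟨_, hC, _, he⟩ => hC.subset_ground he

lemma Presents.cyc_nbr_le (hA : Presents M A) (U : Set α) {B : Set α}
    (hB : M.IsBasis B (cyc M U)) : (nbr A (cyc M U)).ncard ≤ B.ncard := by
  obtain ⟨ψ, hψ, hψA⟩ := (hA _).1 hB.indep
  have hfin : B.Finite := M.set_finite B hB.indep.subset_ground
  have key : ∀ f ∈ cyc M U, f ∉ B → nbr A (M.fundCircuit f B) ⊆ ψ '' B := by
    intro f hf hfB
    have hC := hB.indep.fundCircuit_isCircuit (hB.subset_closure hf) hfB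
    have hsub : M.fundCircuit f B \ {f} ⊆ B := by
      rintro x ⟨hx, hxf⟩
      rcases M.fundCircuit_subset_insert f B hx with h | h
      · exact absurd h hxf
      · exact h
    rw [hA.circuit_nbr_eq_image hC (M.mem_fundCircuit f B) (hψ.mono hsub)
      (fun x hx => hψA x (hsub hx))]
    exact image_mono hsub
  have hsub : nbr A (cyc M U) ⊆ ψ '' B := by
    rintro i ⟨e, he, hi⟩
    by_cases heB : e ∈ B
    · have : ∃ f ∈ cyc M U, f ∉ B ∧ f ∉ M.closure (B \ {e}) := by
        by_contra hcon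
        push Not at hcon
        obtain ⟨C, hC, hCU, heC⟩ := he
        have h1 : C \ {e} ⊆ M.closure (B \ {e}) := by
          rintro x ⟨hx, hxe⟩
          by_cases hxB : x ∈ B
          · exact M.subset_closure _ (sdiff_subset.trans hB.indep.subset_ground) ⟨hxB, hxe⟩
          · exact hcon x ⟨C, hC, hCU, hx⟩ hxB
        exact hB.indep.notMem_closure_sdiff_of_mem heB
          (closure_subset_closure_of_subset_closure h1 (hC.mem_closure_sdiff_singleton_of_mem heC))
      obtain ⟨f, hf, hfB, hfcl⟩ := this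
      apply key f hf hfB
      refine ⟨e, ?_, hi⟩
      by_contra hne
      apply hfcl
      have hC := hB.indep.fundCircuit_isCircuit (hB.subset_closure hf) hfB
      refine M.closure_subset_closure ?_
        (hC.mem_closure_sdiff_singleton_of_mem (M.mem_fundCircuit f B))
      rintro x ⟨hx, hxf⟩
      rcases M.fundCircuit_subset_insert f B hx with h | h
      · exact absurd h hxf
      · exact ⟨h, fun hxe => hne (by rw [mem_singleton_iff] at hxe; rwa [← hxe])⟩
    · exact key e he heB ⟨e, M.mem_fundCircuit e B, hi⟩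
  calc (nbr A (cyc M U)).ncard ≤ (ψ '' B).ncard := ncard_le_ncard hsub (toFinite _)
    _ = B.ncard := hψ.ncard_image

end finite

end Pool.Agent.Work.MP_4792b2_co
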