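import Pool.Agent.Work.MP_4792b2_co.Rank

namespace Pool.Agent.Work.MP_4792b2_co

open Set Matroid

variable {α ι κ : Type*} {M : Matroid α} {A : ι → Set α} {A' : κ → Set α}

lemma Sim.symm {U X X' : Set α} (h : Sim M U X X') : Sim M U X' X :=
  fun Z hZ => (h Z hZ).symm

lemma Sim.trans {U X X' X'' : Set α} (h : Sim M U X X') (h' : Sim M U X' X'') : Sim M U X X'' :=
  fun Z hZ => (h Z hZ).trans (h' Z hZ)

lemma simClasses_encard_le {β : Type*} (U : Set α) (f : Set α → β) (S : Set β)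
    (hf : ∀ X, X ⊆ U → f X ∈ S)
    (hsim : ∀ X, X ⊆ U → ∀ X', X' ⊆ U → f X = f X' → Sim M U X X') :
    (simClasses M U).encard ≤ S.encard := by
  let g : β → Set (Set α) := fun s => {X' | X' ⊆ U ∧ ∃ X, X ⊆ U ∧ f X = s ∧ Sim M U X X'}
  have hsub : simClasses M U ⊆ g '' S := by
    rintro _ ⟨X, hX, rfl⟩
    refine ⟨f X, hf X hX, ?_⟩
    ext X'
    simp only [g, mem_ofPred_eq]
    constructor
    · rintro ⟨hX', X₀, hX₀, hfX, hs⟩
      exact ⟨hX', (hsim X₀ hX₀ X hX hfX).symm.trans hs⟩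
    · rintro ⟨hX', hs⟩
      exact ⟨hX', X, hX, rfl, hs⟩
  exact (encard_le_encard hsub).trans (encard_image_le _ _)

/-- The deficiency of `W` relative to `P`. -/
noncomputable def dlt (A : ι → Set α) (W : Set α) (P : Set ι) : ℤ :=
  (W.ncard : ℤ) - ((nbr A W \ P).ncard : ℤ)

variable [M.Finite] [Finite ι] [Nonempty ι]

omit [M.Finite] [Nonempty ι] in
lemma nbr_union_ncard_le (W W' : Set α) (P : Set ι) :
    (nbr A (W ∪ W')).ncard ≤ P.ncard + (nbr A W \ P).ncard + (nbr A W' \ P).ncard := by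
  have hsub : nbr A (W ∪ W') ⊆ (P ∪ (nbr A W \ P)) ∪ (nbr A W' \ P) := by
    rw [nbr_union]
    intro i hi
    by_cases hP : i ∈ P
    · exact Or.inl (Or.inl hP)
    · rcases hi with hi | hi
      · exact Or.inl (Or.inr ⟨hi, hP⟩)
      · exact Or.inr ⟨hi, hP⟩
  have h1 := ncard_le_ncard hsub (toFinite _)
  have h2 := ncard_union_le (P ∪ (nbr A W \ P)) (nbr A W' \ P)
  have h3 := ncard_union_le P (nbr A W \ P)
  omega

omit [Nonempty ι] in
lemma Presents.not_indep_of_dlt (hA : Presents M A) {U V : Set α} {l : ℕ} (h : Sep M U V l)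
    {W W' : Set α} (hW : W ⊆ U) (hW' : W' ⊆ V) {P : Set ι}
    (hlt : (P.ncard : ℤ) < dlt A W P + dlt A W' P) : ¬ M.Indep (W ∪ W') := by
  intro hI
  have h1 := hA.ncard_le_nbr hI
  have h2 := nbr_union_ncard_le (A := A) W W' P
  rw [ncard_union_eq (h.disj.mono hW hW') (M.set_finite W (hW.trans h.left_subset))
    (M.set_finite W' (hW'.trans h.right_subset))] at h1
  unfold dlt at hlt
  omega

omit [Nonempty ι] in
lemma Presents.dlt_add_le (hA : Presents M A) {U V : Set α} {l : ℕ} (h : Sep M U V l)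
    {W W' : Set α} (hW : W ⊆ U) (hW' : W' ⊆ V) (hi : M.Indep W) (hi' : M.Indep W') (P : Set ι) :
    dlt A W P + dlt A W' P ≤ (P.ncard : ℤ) + l := by
  have h1 := h.local_conn hW hW'
  have h2 := nbr_union_ncard_le (A := A) W W' P
  have h3 := hA.rk_le_nbr (union_subset hi.subset_ground hi'.subset_ground)
  rw [rk_indep hi, rk_indep hi'] at h1
  unfold dlt
  omega

/-- The dual neighbourhood types of the elements of the coguts. -/
def types (M : Matroid α) (A' : κ → Set α) (U V : Set α) : Set (Set κ) :=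
  (fun e => nbr A' {e}) '' (U \ cyc M U) ∪ (fun e => nbr A' {e}) '' (V \ cyc M V)

/-- The bounded family of test sets. -/
def fam (M : Matroid α) (A : ι → Set α) (A' : κ → Set α) (U V : Set α) : Set (Set ι) :=
  (fun q : Set (Set κ) × Set ι => nbr A {f | f ∈ M.E ∧ nbr A' {f} ∈ q.1} ∪ q.2) ''
    (𝒫 (types M A' U V) ×ˢ 𝒫 (nbr A (cyc M U) ∩ nbr A (cyc M V)))

lemma fam_ncard_le [Finite κ] [Nonempty κ] (hA : Presents M A) (hA' : Presents M✶ A')
    {U V : Set α} {l : ℕ} (h : Sep M U V l) :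
    (fam M A A' U V).ncard ≤ 2 ^ (2 * (2 ^ l + l)) * 2 ^ l := by
  unfold fam
  refine (ncard_image_le (toFinite _)).trans ?_
  rw [ncard_prod, ncard_powerset _ (toFinite _), ncard_powerset _ (toFinite _)]
  apply Nat.mul_le_mul
  · apply Nat.pow_le_pow_right (by norm_num)
    have h1 := h.types_small hA'
    have h2 := h.symm.types_small hA'
    have h3 := ncard_union_le ((fun e => nbr A' {e}) '' (U \ cyc M U))
      ((fun e => nbr A' {e}) '' (V \ cyc M V))
    unfold types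
    omega
  · exact Nat.pow_le_pow_right (by norm_num) (hA.guts_small h)

lemma exists_fam (hA : Presents M A) (hA' : Presents M✶ A') {U V : Set α} {l : ℕ}
    (h : Sep M U V l) {X Z : Set α} (hX : X ⊆ U) (hZ : Z ⊆ V) (hdep : ¬ M.Indep (X ∪ Z)) :
    ∃ P ∈ fam M A A' U V, ∃ W, W ⊆ X ∧ ∃ W', W' ⊆ Z ∧ (P.ncard : ℤ) < dlt A W P + dlt A W' P := by
  obtain ⟨C, hCs, hC⟩ := (dep_of_not_indep hdep
    (union_subset (hX.trans h.left_subset) (hZ.trans h.right_subset))).exists_isCircuit_subset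
  set T : Set (Set κ) := (fun e => nbr A' {e}) '' (C ∩ ((U \ cyc M U) ∪ (V \ cyc M V))) with hT
  set S0 : Set ι := nbr A C ∩ (nbr A (cyc M U) ∩ nbr A (cyc M V)) with hS0
  set P : Set ι := nbr A {f | f ∈ M.E ∧ nbr A' {f} ∈ T} ∪ S0 with hP
  have hPC : P ⊆ nbr A C := by
    rintro i (⟨f, ⟨hfE, e, ⟨heC, -⟩, hef⟩, hi⟩ | hi)
    · exact hA.nbr_subset_of_mem_closure (hA'.mem_closure_of_dual_nbr_eq hC heC hfE hef)
        ⟨f, rfl, hi⟩
    · exact hi.1
  refine ⟨P, ⟨(T, S0), ⟨?_, inter_subset_right⟩, rfl⟩, C ∩ X, inter_subset_right, C ∩ Z,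
    inter_subset_right, ?_⟩
  · rintro _ ⟨e, ⟨-, he | he⟩, rfl⟩
    · exact Or.inl ⟨e, he, rfl⟩
    · exact Or.inr ⟨e, he, rfl⟩
  · have hCfin : C.Finite := M.set_finite C hC.subset_ground
    have hcard : C.ncard = (C ∩ X).ncard + (C ∩ Z).ncard := by
      rw [← ncard_union_eq (h.disj.mono (inter_subset_right.trans hX)
        (inter_subset_right.trans hZ)) (hCfin.subset inter_subset_left)
        (hCfin.subset inter_subset_left), ← inter_union_distrib_left,
        inter_eq_self_of_subset_left hCs]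
    have hdisj : Disjoint (nbr A (C ∩ X) \ P) (nbr A (C ∩ Z) \ P) := by
      rw [Set.disjoint_left]
      rintro i ⟨⟨x, ⟨hxC, hxX⟩, hix⟩, hiP⟩ ⟨⟨z, ⟨hzC, hzZ⟩, hiz⟩, -⟩
      apply hiP
      by_cases hx : x ∈ cyc M U
      · by_cases hz : z ∈ cyc M V
        · exact Or.inr ⟨⟨x, hxC, hix⟩, ⟨x, hx, hix⟩, ⟨z, hz, hiz⟩⟩
        · exact Or.inl ⟨z, ⟨hC.subset_ground hzC, z, ⟨hzC, Or.inr ⟨hZ hzZ, hz⟩⟩, rfl⟩, hiz⟩
      · exact Or.inl ⟨x, ⟨hC.subset_ground hxC, x, ⟨hxC, Or.inl ⟨hX hxX, hx⟩⟩, rfl⟩, hix⟩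
    have hdisj2 : Disjoint P ((nbr A (C ∩ X) \ P) ∪ (nbr A (C ∩ Z) \ P)) :=
      disjoint_union_right.2 ⟨disjoint_sdiff_right, disjoint_sdiff_right⟩
    have hsub : P ∪ ((nbr A (C ∩ X) \ P) ∪ (nbr A (C ∩ Z) \ P)) ⊆ nbr A C :=
      union_subset hPC (union_subset (sdiff_subset.trans (nbr_mono inter_subset_left))
        (sdiff_subset.trans (nbr_mono inter_subset_left)))
    have h1 := ncard_le_ncard hsub (toFinite _)
    rw [ncard_union_eq hdisj2, ncard_union_eq hdisj] at h1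
    have h2 := hA.circuit_nbr hC
    unfold dlt
    omega

omit [Nonempty ι] [Finite ι] in
lemma exists_best (A : ι → Set α) {U : Set α} (hU : U ⊆ M.E) (P : Set ι) :
    ∃ W, W ⊆ U ∧ M.Indep W ∧ ∀ W', W' ⊆ U → M.Indep W' → dlt A W' P ≤ dlt A W P := by
  have hfin : {W | W ⊆ U ∧ M.Indep W}.Finite :=
    (M.set_finite U hU).finite_subsets.subset fun W hW => hW.1
  obtain ⟨W, hW, hmax⟩ := hfin.exists_maximalFor (fun W => dlt A W P) _
    ⟨∅, empty_subset _, M.empty_indep⟩
  refine ⟨W, hW.1, hW.2, fun W' h1 h2 => ?_⟩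
  by_contra hcon
  push Not at hcon
  exact absurd (hmax ⟨h1, h2⟩ hcon.le) (not_le.2 hcon)

theorem simClasses_le [Finite κ] [Nonempty κ] (hA : Presents M A) (hA' : Presents M✶ A')
    {U : Set α} {l : ℕ} (h : Sep M U (M.E \ U) l) :
    (simClasses M U).encard ≤ ((2 ^ ((2 ^ (2 * (2 ^ l + l)) * 2 ^ l) * l) + 1 : ℕ) : ℕ∞) := by
  classical
  set V := M.E \ U with hV
  choose best hbU hbI hbmax using exists_best (M := M) A h.left_subset
  let sig : Set α → Set (Set ι × ℕ) := fun X =>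
    {q | q.1 ∈ fam M A A' U V ∧ q.2 < l ∧ ∃ W, W ⊆ X ∧ dlt A (best q.1) q.1 ≤ dlt A W q.1 + q.2}
  let f : Set α → Option (Set (Set ι × ℕ)) := fun X => if M.Indep X then some (sig X) else none
  let R : Set (Set ι × ℕ) := fam M A A' U V ×ˢ Iio l
  have hRfin : R.Finite := (toFinite _).prod (finite_Iio l)
  have key : ∀ X, X ⊆ U → ∀ X', X' ⊆ U → M.Indep X → sig X = sig X' → ∀ Z, Z ⊆ V →
      ¬ M.Indep (X ∪ Z) → ¬ M.Indep (X' ∪ Z) := by
    intro X hX X' hX' hXi hsig Z hZ hdep hind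
    have hZi : M.Indep Z := hind.subset subset_union_right
    obtain ⟨P, hP, W, hW, W', hW', hlt⟩ := exists_fam hA hA' h hX hZ hdep
    have h1 := hbmax P W (hW.trans hX) (hXi.subset hW)
    have h2 := hA.dlt_add_le h (hbU P) (hW'.trans hZ) (hbI P) (hZi.subset hW') P
    have hmem : (P, (dlt A (best P) P - dlt A W P).toNat) ∈ sig X := by
      refine ⟨hP, ?_, W, hW, ?_⟩
      · show (dlt A (best P) P - dlt A W P).toNat < l
        omega
      · show dlt A (best P) P ≤ dlt A W P + ((dlt A (best P) P - dlt A W P).toNat : ℤ)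
        omega
    rw [hsig] at hmem
    obtain ⟨-, -, W₁, hW₁, hle⟩ := hmem
    have hle' : dlt A (best P) P ≤ dlt A W₁ P + ((dlt A (best P) P - dlt A W P).toNat : ℤ) := hle
    refine hA.not_indep_of_dlt h (hW₁.trans hX') (hW'.trans hZ) (P := P) (by omega) ?_
    exact hind.subset (union_subset_union hW₁ hW')
  have hmain := simClasses_encard_le (M := M) U f (insert none (some '' 𝒫 R)) ?_ ?_
  · refine hmain.trans ?_
    have hfin : (some '' 𝒫 R).Finite := hRfin.finite_subsets.image _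
    refine (encard_insert_le _ _).trans ?_
    rw [← hfin.cast_ncard_eq]
    norm_cast
    rw [ncard_image_of_injective _ (Option.some_injective _), ncard_powerset _ hRfin]
    apply Nat.add_le_add_right
    apply Nat.pow_le_pow_right (by norm_num)
    simp only [R]
    rw [ncard_prod]
    apply Nat.mul_le_mul (fam_ncard_le hA hA' h)
    rw [← Finset.coe_range, ncard_coe_finset, Finset.card_range]
  · intro X _
    by_cases hXi : M.Indep X
    · right
      refine ⟨sig X, ?_, by simp [f, hXi]⟩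
      rintro q ⟨h1, h2, -⟩
      exact ⟨h1, h2⟩
    · left
      simp [f, hXi]
  · intro X hX X' hX' hf Z hZ
    by_cases hXi : M.Indep X
    · by_cases hXi' : M.Indep X'
      · have hsig : sig X = sig X' := by simpa [f, hXi, hXi'] using hf
        constructor
        · intro h1
          by_contra h2
          exact key X' hX' X hX hXi' hsig.symm Z hZ h2 h1
        · intro h1
          by_contra h2
          exact key X hX X' hX' hXi hsig Z hZ h2 h1
      · simp [f, hXi, hXi'] at hf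
    · by_cases hXi' : M.Indep X'
      · simp [f, hXi, hXi'] at hf
      · exact ⟨fun h1 => absurd (h1.subset subset_union_left) hXi,
          fun h1 => absurd (h1.subset subset_union_left) hXi'⟩

end Pool.Agent.Work.MP_4792b2_co
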