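import Pool.Agent.Work.MP_4792b2_co.Basic

namespace Pool.Agent.Work.MP_4792b2_co

open Set Matroid

variable {α ι : Type*} {M : Matroid α} {A : ι → Set α}

/-- Natural-number rank. -/
noncomputable def rk (M : Matroid α) (X : Set α) : ℕ := (M.eRk X).toNat

variable [M.Finite]

lemma rk_cast (X : Set α) : (rk M X : ℕ∞) = M.eRk X := by
  unfold rk
  apply ENat.natCast_toNat
  exact ne_top_of_le_ne_top ((M.eRank_ne_top_iff).2 inferInstance) (M.eRk_le_eRank X)

lemma rk_indep {I : Set α} (hI : M.Indep I) : rk M I = I.ncard := by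
  have h := rk_cast (M := M) I
  rw [hI.eRk_eq_encard, ← (M.set_finite I hI.subset_ground).cast_ncard_eq] at h
  exact_mod_cast h

lemma rk_isBasis {I X : Set α} (hI : M.IsBasis I X) : rk M X = I.ncard := by
  rw [← rk_indep hI.indep]
  unfold rk
  rw [hI.eRk_eq_eRk]

lemma rk_mono {X Y : Set α} (h : X ⊆ Y) : rk M X ≤ rk M Y := by
  have := M.eRk_mono h
  rw [← rk_cast, ← rk_cast] at this
  exact_mod_cast this

lemma rk_submod (X Y : Set α) : rk M (X ∩ Y) + rk M (X ∪ Y) ≤ rk M X + rk M Y := by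
  have := M.eRk_inter_add_eRk_union_le X Y
  simp only [← rk_cast] at this
  exact_mod_cast this

/-- `(U, V)` is a partition of the ground set with connectivity at most `l`. -/
structure Sep (M : Matroid α) (U V : Set α) (l : ℕ) : Prop where
  union : U ∪ V = M.E
  disj : Disjoint U V
  conn : rk M U + rk M V ≤ rk M M.E + l

omit [M.Finite] in
lemma Sep.symm {U V : Set α} {l : ℕ} (h : Sep M U V l) : Sep M V U l :=
  ⟨by rw [union_comm, h.union], h.disj.symm, by rw [add_comm]; exact h.conn⟩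

omit [M.Finite] in
lemma Sep.left_subset {U V : Set α} {l : ℕ} (h : Sep M U V l) : U ⊆ M.E :=
  h.union ▸ subset_union_left

omit [M.Finite] in
lemma Sep.right_subset {U V : Set α} {l : ℕ} (h : Sep M U V l) : V ⊆ M.E :=
  h.union ▸ subset_union_right

lemma Sep.local_conn {U V : Set α} {l : ℕ} (h : Sep M U V l) {X Z : Set α} (hX : X ⊆ U)
    (hZ : Z ⊆ V) : rk M X + rk M Z ≤ rk M (X ∪ Z) + l := by
  have h1 := rk_submod (M := M) U (X ∪ Z)
  have h2 := rk_submod (M := M) (U ∪ Z) V
  have e1 : U ∪ (X ∪ Z) = U ∪ Z := by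
    rw [← union_assoc, union_eq_self_of_subset_right hX]
  have e2 : U ∪ Z ∪ V = M.E := by
    rw [union_assoc, union_eq_self_of_subset_left hZ, h.union]
  have m1 : rk M X ≤ rk M (U ∩ (X ∪ Z)) := rk_mono (subset_inter hX subset_union_left)
  have m2 : rk M Z ≤ rk M ((U ∪ Z) ∩ V) := rk_mono (subset_inter subset_union_right hZ)
  rw [e1] at h1
  rw [e2] at h2
  have := h.conn
  omega

lemma Presents.rk_le_nbr [Finite ι] (hA : Presents M A) {W : Set α} (hW : W ⊆ M.E) :
    rk M W ≤ (nbr A W).ncard := by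
  obtain ⟨B, hB⟩ := M.exists_isBasis W hW
  rw [rk_isBasis hB]
  exact (hA.ncard_le_nbr hB.indep).trans (ncard_le_ncard (nbr_mono hB.subset) (toFinite _))

lemma Presents.cyc_nbr_le_rk [Finite ι] [Nonempty ι] (hA : Presents M A) (U : Set α) :
    (nbr A (cyc M U)).ncard ≤ rk M (cyc M U) := by
  obtain ⟨B, hB⟩ := M.exists_isBasis (cyc M U) (cyc_subset_ground U)
  rw [rk_isBasis hB]
  exact hA.cyc_nbr_le U hB

lemma Presents.guts_small [Finite ι] [Nonempty ι] (hA : Presents M A) {U V : Set α} {l : ℕ}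
    (h : Sep M U V l) : (nbr A (cyc M U) ∩ nbr A (cyc M V)).ncard ≤ l := by
  have h1 := hA.cyc_nbr_le_rk U
  have h2 := hA.cyc_nbr_le_rk V
  have h3 := h.local_conn (cyc_subset (M := M) U) (cyc_subset (M := M) V)
  have h4 := hA.rk_le_nbr (union_subset (cyc_subset_ground U) (cyc_subset_ground V))
  rw [nbr_union] at h4
  have h5 := ncard_union_add_ncard_inter (nbr A (cyc M U)) (nbr A (cyc M V))
  omega

omit [M.Finite] in
lemma indep_union_of_sdiff_cyc {U B Y : Set α} (hU : U ⊆ M.E) (hB : M.Indep B) (hBU : B ⊆ U)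
    (hY : Y ⊆ U \ cyc M U) : M.Indep (B ∪ Y) := by
  have hsub : B ∪ Y ⊆ U := union_subset hBU (hY.trans sdiff_subset)
  by_contra hcon
  obtain ⟨C, hCs, hC⟩ := (dep_of_not_indep hcon (hsub.trans hU)).exists_isCircuit_subset
  apply hC.not_indep
  refine hB.subset fun x hx => ?_
  rcases hCs hx with h | h
  · exact h
  · exact absurd ⟨C, hC, hCs.trans hsub, hx⟩ (hY h).2

lemma Sep.coguts_small {U V : Set α} {l : ℕ} (h : Sep M U V l) {Y : Set α}
    (hY : Y ⊆ U \ cyc M U) (hYi : M✶.Indep Y) : Y.ncard ≤ l := by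
  have hsp : M.Spanning (M.E \ Y) := (show M.Coindep Y from hYi).compl_spanning
  have h1 : rk M (M.E \ Y) = rk M M.E := by
    unfold rk
    rw [hsp.eRk_eq, eRk_ground]
  have hYU : Y ⊆ U := hY.trans sdiff_subset
  have h2 : rk M (M.E \ Y) ≤ rk M (U \ Y) + rk M V := by
    have := rk_submod (M := M) (U \ Y) V
    have h' : rk M (M.E \ Y) ≤ rk M (U \ Y ∪ V) := by
      apply rk_mono
      rintro x ⟨hx, hxY⟩
      rw [← h.union] at hx
      rcases hx with hx | hx
      · exact Or.inl ⟨hx, hxY⟩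
      · exact Or.inr hx
    omega
  obtain ⟨B, hB⟩ := M.exists_isBasis (U \ Y) (sdiff_subset.trans h.left_subset)
  have hBY := indep_union_of_sdiff_cyc h.left_subset hB.indep (hB.subset.trans sdiff_subset) hY
  have h3 : rk M (B ∪ Y) ≤ rk M U := rk_mono (union_subset (hB.subset.trans sdiff_subset) hYU)
  have hdisj : Disjoint B Y := disjoint_sdiff_left.mono_left hB.subset
  rw [rk_indep hBY, ncard_union_eq hdisj (M.set_finite B hB.indep.subset_ground)
    (M.set_finite Y (hYU.trans h.left_subset)), ← rk_isBasis hB] at h3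
  have := h.conn
  omega

lemma Sep.types_small [Finite ι] [Nonempty ι] {U V : Set α} {l : ℕ} (h : Sep M U V l)
    (hA : Presents M✶ A) :
    ((fun e => nbr A {e}) '' (U \ cyc M U)).ncard ≤ 2 ^ l + l := by
  classical
  set I := U \ cyc M U with hI
  have hIE : I ⊆ M✶.E := sdiff_subset.trans h.left_subset
  have hfin : M✶.Finite := ⟨M.ground_finite⟩
  have h1 : (nbr A (cyc M✶ I)).ncard ≤ l := by
    obtain ⟨B, hB⟩ := M✶.exists_isBasis (cyc M✶ I) (cyc_subset_ground I)
    exact (hA.cyc_nbr_le I hB).trans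
      (h.coguts_small (hB.subset.trans (cyc_subset I)) hB.indep)
  have h2 : (I \ cyc M✶ I).ncard ≤ l := by
    apply h.coguts_small sdiff_subset
    have := indep_union_of_sdiff_cyc (M := M✶) (B := ∅) (Y := I \ cyc M✶ I) hIE
      M✶.empty_indep (empty_subset _) Subset.rfl
    rwa [empty_union] at this
  have hsub : (fun e => nbr A {e}) '' I ⊆
      𝒫 (nbr A (cyc M✶ I)) ∪ (fun e => nbr A {e}) '' (I \ cyc M✶ I) := by
    rintro _ ⟨e, he, rfl⟩
    by_cases hc : e ∈ cyc M✶ I
    · exact Or.inl (nbr_mono (singleton_subset_iff.2 hc))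
    · exact Or.inr ⟨e, ⟨he, hc⟩, rfl⟩
  calc ((fun e => nbr A {e}) '' I).ncard
      ≤ (𝒫 (nbr A (cyc M✶ I)) ∪ (fun e => nbr A {e}) '' (I \ cyc M✶ I)).ncard :=
        ncard_le_ncard hsub (toFinite _)
    _ ≤ (𝒫 (nbr A (cyc M✶ I))).ncard + ((fun e => nbr A {e}) '' (I \ cyc M✶ I)).ncard :=
        ncard_union_le _ _
    _ ≤ 2 ^ l + l := by
        apply add_le_add
        · rw [ncard_powerset _ (toFinite _)]
          exact Nat.pow_le_pow_right (by norm_num) h1
        · exact (ncard_image_le (M.set_finite _ (sdiff_subset.trans hIE))).trans h2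

omit [M.Finite] in
lemma Presents.mem_closure_of_dual_nbr_eq (hA : Presents M✶ A) {C : Set α} (hC : M.IsCircuit C)
    {e f : α} (he : e ∈ C) (hf : f ∈ M.E) (hef : nbr A {e} = nbr A {f}) : f ∈ M.closure C := by
  classical
  by_contra hfC
  have hfC' : f ∉ C := fun h => hfC (M.subset_closure C hC.subset_ground h)
  have hfe : f ≠ e := fun h => hfC' (h ▸ he)
  have hCe := hC.sdiff_singleton_indep he
  have hfCe : f ∉ C \ {e} := fun h => hfC' h.1
  have hind : M.Indep (insert f (C \ {e})) := by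
    rw [← hCe.notMem_closure_iff_of_notMem hfCe hf, hC.closure_sdiff_singleton_eq]
    exact hfC
  obtain ⟨B, hB, hsub⟩ := hind.exists_isBase_superset
  have hfB : f ∈ B := hsub (mem_insert _ _)
  have hCB : C \ {e} ⊆ B \ {f} := fun x hx =>
    ⟨hsub (mem_insert_of_mem _ hx), fun hxf => hfCe (by rw [mem_singleton_iff] at hxf; rwa [← hxf])⟩
  have hecl : e ∈ M.closure (B \ {f}) :=
    M.closure_subset_closure hCB (hC.mem_closure_sdiff_singleton_of_mem he)
  have heB : e ∉ B := by
    intro heB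
    apply hC.not_indep
    refine hB.indep.subset fun x hx => ?_
    by_cases hxe : x = e
    · rwa [hxe]
    · exact (hCB ⟨hx, hxe⟩).1
  have hdual : M✶.Indep (M.E \ B) := hB.compl_isBase_dual.indep
  obtain ⟨ψ, hψ, hψA⟩ := (hA _).1 hdual
  have heD : e ∈ M.E \ B := ⟨hC.subset_ground he, heB⟩
  have hfA : f ∈ A (ψ e) := by
    have : ψ e ∈ nbr A {f} := hef ▸ ⟨e, rfl, hψA e heD⟩
    obtain ⟨x, hx, hxA⟩ := this
    rw [mem_singleton_iff] at hx
    rwa [hx] at hxA
  have hswap : M✶.Indep (insert f ((M.E \ B) \ {e})) := by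
    refine (hA _).2 ⟨Function.update ψ f (ψ e), ?_, ?_⟩
    · have hne : ∀ x ∈ (M.E \ B) \ {e}, x ≠ f := fun x hx hxf => hx.1.2 (hxf ▸ hfB)
      rintro x (rfl | hx) y (rfl | hy) hxy
      · rfl
      · rw [Function.update_self, Function.update_of_ne (hne y hy)] at hxy
        exact absurd (hψ heD hy.1 hxy).symm hy.2
      · rw [Function.update_self, Function.update_of_ne (hne x hx)] at hxy
        exact absurd (hψ hx.1 heD hxy) hx.2
      · rw [Function.update_of_ne (hne x hx), Function.update_of_ne (hne y hy)] at hxy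
        exact hψ hx.1 hy.1 hxy
    · rintro x (rfl | hx)
      · rwa [Function.update_self]
      · rw [Function.update_of_ne (fun (hxf : x = f) => hx.1.2 (by rw [hxf]; exact hfB))]
        exact hψA x hx.1
  have hcl := (show M.Coindep _ from hswap).closure_compl
  have hsub2 : M.E \ insert f ((M.E \ B) \ {e}) ⊆ M.closure (B \ {f}) := by
    rintro x ⟨hxE, hx⟩
    simp only [mem_insert_iff, mem_sdiff, mem_singleton_iff, not_or, not_and, not_not] at hx
    by_cases hxe : x = e
    · rwa [hxe]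
    · have hxB : x ∈ B := by
        by_contra hxB
        exact hxe (hx.2 ⟨hxE, hxB⟩)
      exact M.subset_closure _ (sdiff_subset.trans hB.subset_ground) ⟨hxB, hx.1⟩
  have : f ∈ M.closure (B \ {f}) := closure_subset_closure_of_subset_closure hsub2 (hcl.symm ▸ hf)
  exact hB.indep.notMem_closure_sdiff_of_mem hfB this

end Pool.Agent.Work.MP_4792b2_co
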